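import Pool.Agent.Y164.SZ.Stm
import Pool.Agent.Y287.SZ.Weil

/-!
Project SZ, job CHR: sums of the symbol of order `ℓ` over the primes of a given degree.
-/

set_option autoImplicit false
set_option linter.all false

open Polynomial Finset

namespace Pool.Agent.Y287.SZ.Chr

open Pool.Agent.Y164.SZ
open Pool.Agent.Y164.PS (Pr mem_Pr rest_le)
open Pool.Agent.H341R2.Sharp
open Pool.Agent.H435R3.Weil (lamPR TL TL_char normChar normChar_apply normChar_pow normChar_ne_one)
open Pool.Agent.Y287.SZ.W (CopG weil)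

/-- a monic polynomial which is not an `ℓ`-th power has an irreducible factor of multiplicity not
divisible by `ℓ` -/
theorem exists_fac {k : Type} [Field k] (ℓ : ℕ) : ∀ (n : ℕ) (M : k[X]), M.Monic →
    M.natDegree ≤ n → (∀ h : k[X], M ≠ h ^ ℓ) →
    ∃ (π N : k[X]) (e : ℕ), π.Monic ∧ Irreducible π ∧ M = π ^ e * N ∧ ¬ π ∣ N ∧ ¬ ℓ ∣ e := by
  intro n
  induction n with
  | zero =>
    intro M hM hd hns
    exfalso
    have h1 : M = 1 := hM.natDegree_eq_zero.1 (by omega)
    exact hns 1 (by rw [h1, one_pow])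
  | succ n ih =>
    intro M hM hd hns
    have hne : M.natDegree ≠ 0 := by
      intro h0
      have h1 : M = 1 := hM.natDegree_eq_zero.1 h0
      exact hns 1 (by rw [h1, one_pow])
    have hnu : ¬ IsUnit M := by
      intro hu
      exact hne (natDegree_eq_zero_of_isUnit hu)
    obtain ⟨π, hπm, hπi, hπd⟩ := exists_monic_irreducible_factor M hnu
    have hfin : FiniteMultiplicity π M :=
      FiniteMultiplicity.of_prime_left hπi.prime hM.ne_zero
    obtain ⟨N, hMN, hN⟩ := hfin.exists_eq_pow_mul_and_not_dvd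
    obtain ⟨e, he⟩ : ∃ e, e = multiplicity π M := ⟨_, rfl⟩
    rw [← he] at hMN
    have he0 : e ≠ 0 := by
      rintro rfl
      rw [pow_zero, one_mul] at hMN
      exact hN (hMN ▸ hπd)
    have hNm : N.Monic := by
      rw [hMN] at hM
      exact (hπm.pow e).of_mul_monic_left hM
    by_cases hle : ℓ ∣ e
    · obtain ⟨e', rfl⟩ := hle
      have hNns : ∀ h : k[X], N ≠ h ^ ℓ := by
        intro h hh
        apply hns (π ^ e' * h)
        rw [hMN, hh, mul_pow, ← pow_mul, mul_comm e' ℓ]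
      have hπdeg : 0 < π.natDegree := hπi.natDegree_pos
      have hdeg : M.natDegree = (ℓ * e') * π.natDegree + N.natDegree := by
        rw [hMN, (hπm.pow _).natDegree_mul hNm, hπm.natDegree_pow]
      have hpos : 0 < (ℓ * e') * π.natDegree := Nat.mul_pos (Nat.pos_of_ne_zero he0) hπdeg
      obtain ⟨π', N', e'', h1, h2, h3, h4, h5⟩ := ih N hNm (by omega) hNns
      refine ⟨π', π ^ (ℓ * e') * N', e'', h1, h2, ?_, ?_, h5⟩
      · rw [hMN, h3]; ring
      · intro hdv
        rcases h2.prime.dvd_or_dvd hdv with h6 | h6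
        · have h7 := h2.prime.dvd_of_dvd_pow h6
          have h8 : Associated π' π := h2.associated_of_dvd hπi h7
          have h9 : π' = π := eq_of_monic_of_associated h1 hπm h8
          apply hN
          rw [← h9, h3]
          apply Dvd.dvd.mul_right
          apply dvd_pow_self
          rintro rfl
          exact h5 (dvd_zero _)
        · exact h4 h6
    · exact ⟨π, N, e, hπm, hπi, hMN, hN, hle⟩

theorem copG_of {k : Type} [Field k] [Fintype k] {ℓ : ℕ} (hℓ : ℓ.Prime) {M : k[X]} (hM : M.Monic)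
    (hns : ∀ (c : k) (h : k[X]), M ≠ C c * h ^ ℓ) : CopG ℓ M := by
  obtain ⟨π, N, e, h1, h2, h3, h4, h5⟩ := exists_fac ℓ M.natDegree M hM le_rfl
    (fun h hh => hns 1 h (by rw [C_1, one_mul]; exact hh))
  let Ω := AlgebraicClosure k
  obtain ⟨v, hv⟩ := IsAlgClosed.exists_aeval_eq_zero Ω π (degree_pos_of_irreducible h2).ne'
  refine ⟨Ω, inferInstance, inferInstance, algebraMap k Ω, v, ?_⟩
  have hπ0 : π.map (algebraMap k Ω) ≠ 0 := (h1.map _).ne_zero
  have hN0 : N.map (algebraMap k Ω) ≠ 0 := by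
    intro h0
    rw [Polynomial.map_eq_zero_iff (algebraMap k Ω).injective] at h0
    exact h4 (h0 ▸ dvd_zero _)
  have hroot : (π.map (algebraMap k Ω)).IsRoot v := by
    rw [IsRoot.def, eval_map_algebraMap]
    exact hv
  have hsep : (π.map (algebraMap k Ω)).Separable :=
    (PerfectField.separable_of_irreducible h2).map
  have hm1 : rootMultiplicity v (π.map (algebraMap k Ω)) = 1 := by
    apply le_antisymm
    · exact rootMultiplicity_le_one_of_separable hsep v
    · exact (rootMultiplicity_pos hπ0).2 hroot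
  have hm0 : rootMultiplicity v (N.map (algebraMap k Ω)) = 0 := by
    apply rootMultiplicity_eq_zero
    intro hr
    have hcop : IsCoprime π N := (h2.coprime_iff_not_dvd).2 h4
    obtain ⟨a, b, hab⟩ := hcop.map (mapRingHom (algebraMap k Ω))
    have h6 := congrArg (eval v) hab
    simp only [coe_mapRingHom, eval_add, eval_mul, eval_one] at h6
    rw [IsRoot.def] at hroot hr
    rw [hroot, hr, mul_zero, mul_zero, add_zero] at h6
    exact zero_ne_one h6
  have h7 : rootMultiplicity v (M.map (algebraMap k Ω)) = e := by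
    rw [h3, Polynomial.map_mul, Polynomial.map_pow,
      rootMultiplicity_mul (mul_ne_zero (pow_ne_zero _ hπ0) hN0),
      Pool.Agent.H435R3.Weil.rm_pow _ _ hπ0, hm1, hm0, mul_one, add_zero]
  rw [h7]
  exact ((hℓ.coprime_iff_not_dvd).2 h5).symm

section
variable {ℓ : ℕ} {k : Type} [Field k] [Fintype k]

theorem ch_one (h : ∀ c c' : k, c ≠ 0 → c' ≠ 0 → ch ℓ (c * c') = ch ℓ c + ch ℓ c') :
    ch ℓ (1 : k) = 0 := by
  have := h 1 1 one_ne_zero one_ne_zero
  rw [mul_one] at this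
  exact left_eq_add.1 this

open Classical in
/-- the character of order `ℓ` -/
noncomputable def chi [NeZero ℓ]
    (h : ∀ c c' : k, c ≠ 0 → c' ≠ 0 → ch ℓ (c * c') = ch ℓ c + ch ℓ c') : MulChar k ℂ where
  toFun c := if c = 0 then 0 else ZMod.stdAddChar (ch ℓ c)
  map_one' := by
    rw [if_neg one_ne_zero, ch_one h, AddChar.map_zero_eq_one]
  map_mul' := by
    intro a b
    by_cases ha : a = 0
    · rw [ha, zero_mul, if_pos rfl, zero_mul]
    by_cases hb : b = 0
    · rw [hb, mul_zero, if_pos rfl, mul_zero]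
    rw [if_neg (mul_ne_zero ha hb), if_neg ha, if_neg hb, h a b ha hb, AddChar.map_add_eq_mul]
  map_nonunit' := by
    intro a ha
    rw [if_pos]
    by_contra h0
    exact ha (isUnit_iff_ne_zero.2 h0)

variable [NeZero ℓ] (h : ∀ c c' : k, c ≠ 0 → c' ≠ 0 → ch ℓ (c * c') = ch ℓ c + ch ℓ c')

theorem chi_zero : chi h 0 = 0 := MulChar.map_zero _

theorem chi_ne {c : k} (hc : c ≠ 0) : chi h c = ZMod.stdAddChar (ch ℓ c) := by
  exact if_neg hc

theorem chi_pow : chi h ^ ℓ = 1 := by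
  ext u
  rw [MulChar.pow_apply' _ (NeZero.ne ℓ), chi_ne h u.ne_zero, MulChar.one_apply_coe,
    ← AddChar.map_nsmul_eq_pow]
  rw [nsmul_eq_mul, CharP.cast_eq_zero, zero_mul, AddChar.map_zero_eq_one]

theorem chi_norm (c : k) : ‖chi h c‖ ≤ 1 := by
  by_cases hc : c = 0
  · rw [hc, chi_zero, norm_zero]; exact zero_le_one
  · rw [chi_ne h hc]
    exact (AddChar.norm_apply _ _).le

end

theorem gen_not {ℓ : ℕ} (hℓ : ℓ.Prime) {k : Type} [Field k] [Fintype k]
    (hd : ℓ ∣ Fintype.card k - 1) : ¬ ∃ z : k, ((gen k : kˣ) : k) = z ^ ℓ := by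
  classical
  rintro ⟨z, hz⟩
  have hz0 : z ≠ 0 := by
    rintro rfl
    rw [zero_pow hℓ.ne_zero] at hz
    exact (gen k).ne_zero hz
  obtain ⟨w, rfl⟩ : ∃ w : kˣ, (w : k) = z := ⟨Units.mk0 z hz0, rfl⟩
  have h1 : gen k = w ^ ℓ := Units.ext (by rw [hz, Units.val_pow_eq_pow_val])
  have h2 : orderOf (gen k) = Fintype.card k - 1 := by
    have h3 : ∀ x : kˣ, x ∈ Subgroup.zpowers (gen k) :=
      (IsCyclic.exists_generator (α := kˣ)).choose_spec
    rw [orderOf_eq_card_of_forall_mem_zpowers h3, Nat.card_eq_fintype_card, Fintype.card_units]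
  obtain ⟨Q, hQ⟩ := hd
  have h4 : (gen k) ^ Q = 1 := by
    rw [h1, ← pow_mul, ← hQ, ← Fintype.card_units, pow_card_eq_one]
  have h5 := orderOf_dvd_of_pow_eq_one h4
  rw [h2, hQ] at h5
  have hk : 1 < Fintype.card k := Fintype.one_lt_card
  have hQ0 : 0 < Q := by
    rcases Nat.eq_zero_or_pos Q with h0 | h0
    · rw [h0, mul_zero] at hQ; omega
    · exact h0
  have h6 := Nat.le_of_dvd hQ0 h5
  have h7 := hℓ.two_le
  nlinarith

theorem chi_ne_one {ℓ : ℕ} [NeZero ℓ] (hℓ : ℓ.Prime) {k : Type} [Field k] [Fintype k]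
    [DecidableEq k] (hd : ℓ ∣ Fintype.card k - 1) (S : SYM0 ℓ k) : chi S.ch_mul ≠ 1 := by
  intro h1
  have h2 : chi S.ch_mul ((gen k : kˣ) : k) = 1 := by
    rw [h1, MulChar.one_apply_coe]
  rw [chi_ne _ (gen k).ne_zero, ← AddChar.map_zero_eq_one (ZMod.stdAddChar (N := ℓ))] at h2
  have h3 := ZMod.injective_stdAddChar h2
  exact gen_not hℓ hd ((S.ch_zero_iff _ (gen k).ne_zero).1 h3)

theorem split_TC {k : Type} [Field k] [Fintype k] [DecidableEq k] (m : ℕ) (hm : 1 ≤ m)
    (f : k[X] → ℂ) :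
    ∑ P ∈ (Irr k m).filter (fun P => P.natDegree ∣ m), f P =
      ∑ P ∈ Pr k m, f P +
        ∑ P ∈ (Irr k m).filter (fun P => P.natDegree ∣ m ∧ P.natDegree < m), f P := by
  have h1 : (Irr k m).filter (fun P => P.natDegree ∣ m) =
      (Pr k m) ∪ (Irr k m).filter (fun P => P.natDegree ∣ m ∧ P.natDegree < m) := by
    ext P
    rw [mem_union, Pr, mem_filter, mem_filter, mem_filter]
    constructor
    · rintro ⟨h, h'⟩
      rcases (Nat.le_of_dvd hm h').eq_or_lt with h2 | h2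
      · exact Or.inl ⟨h, h2⟩
      · exact Or.inr ⟨h, h', h2⟩
    · rintro (⟨h, h'⟩ | ⟨h, h', _⟩)
      · exact ⟨h, h' ▸ dvd_rfl⟩
      · exact ⟨h, h'⟩
  rw [h1, sum_union]
  rw [disjoint_left]
  intro P hP hP'
  rw [mem_Pr] at hP
  rw [mem_filter] at hP'
  omega

/-- Weil's bound for the sum over the extension of degree `d` -/
theorem TL_le {ℓ : ℕ} [NeZero ℓ] (hℓ : ℓ.Prime) {k : Type} [Field k] [Fintype k]
    [DecidableEq k] (hdv : ℓ ∣ Fintype.card k - 1) (χ : MulChar k ℂ) (hχ1 : χ ≠ 1)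
    (hχ : χ ^ ℓ = 1) {M : k[X]} (hM : M.Monic) (hns : ∀ (c : k) (h : k[X]), M ≠ C c * h ^ ℓ)
    (m : ℕ) (hm : 1 ≤ m) :
    ‖TL (lamPR χ M 1) m‖ ≤ M.natDegree * (Real.sqrt (Fintype.card k)) ^ m := by
  classical
  obtain ⟨p, hp⟩ := CharP.exists k
  have : Fact (Nat.Prime p) := ⟨CharP.char_is_prime k p⟩
  have : NeZero m := ⟨by omega⟩
  let E := FiniteField.Extension k p m
  let _ : Fintype E := Fintype.ofFinite E
  have hfr : Module.finrank k E = m := FiniteField.finrank_extension k p m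
  have hcard : Fintype.card E = Fintype.card k ^ m := by
    rw [Module.card_eq_pow_finrank (K := k) (V := E), hfr]
  have htE : ℓ ∣ Fintype.card E - 1 := by
    refine hdv.trans ?_
    rw [hcard]
    simpa using Nat.sub_dvd_pow_sub_pow (Fintype.card k) 1 m
  have hcop : CopG ℓ (M.map (algebraMap k E) * 1 ^ (ℓ - 1)) := by
    rw [one_pow, mul_one]
    exact (copG_of hℓ hM hns).map
  have h1 := weil ℓ hℓ.two_le htE (normChar k E χ) (normChar_ne_one k E χ hχ1)
    (normChar_pow k E χ ℓ hℓ.ne_zero hχ) (M.map (algebraMap k E)) 1 (hM.map _) monic_one hcop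
  have h2 : Real.sqrt (Fintype.card E) = (Real.sqrt (Fintype.card k)) ^ m := by
    rw [hcard]
    push_cast
    rw [Real.sqrt_eq_iff_mul_self_eq (by positivity) (by positivity), ← mul_pow,
      Real.mul_self_sqrt (by positivity)]
  rw [h2, natDegree_one, add_zero, hM.natDegree_map] at h1
  have h4 := TL_char (E := E) χ M 1
  rw [hfr] at h4
  rw [h4]
  refine le_of_eq_of_le ?_ h1
  congr 1
  apply Finset.sum_congr rfl
  intro x _
  rw [eval_map_algebraMap, normChar_apply, normChar_apply, map_one, eval_one]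

theorem t : S_CHR := by
  intro ℓ hF k _ _ _ h2 hdv hk S M hM hM1 hns d hd
  have hℓ : ℓ.Prime := hF.out
  set χ := chi S.ch_mul with hχ
  have hχ1 : χ ≠ 1 := chi_ne_one hℓ hdv S
  have hχp : χ ^ ℓ = 1 := chi_pow S.ch_mul
  have hlc : ∀ P : k[X], lc ℓ M P = lamPR χ M 1 P := by
    intro P
    unfold lamPR
    have e1 : resultant P (1 : k[X]) P.natDegree (1 : k[X]).natDegree = 1 := by
      rw [natDegree_one, resultant_zero_right_deg]
      simp
    rw [e1, map_one, map_one, mul_one]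
    unfold lc
    split_ifs with h0
    · rw [h0]; exact (MulChar.map_zero _).symm
    · rw [hχ, chi_ne _ h0]; rfl
  have hn1 : ∀ P : k[X], ‖lamPR χ M 1 P‖ ≤ 1 := by
    intro P
    unfold lamPR
    rw [norm_mul, RCLike.norm_conj]
    exact mul_le_one₀ (chi_norm _ _) (norm_nonneg _) (chi_norm _ _)
  have h1 := TL_le hℓ hdv χ hχ1 hχp hM hns d hd
  have h3 := split_TC (k := k) d hd
    (fun P => (P.natDegree : ℂ) * (lamPR χ M 1 P) ^ (d / P.natDegree))
  have h4 : ∑ P ∈ Pr k d, (P.natDegree : ℂ) * (lamPR χ M 1 P) ^ (d / P.natDegree) =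
      (d : ℂ) * ∑ P ∈ Pr k d, lc ℓ M P := by
    rw [mul_sum]
    refine sum_congr rfl fun P hP => ?_
    rw [(mem_Pr.1 hP).2.2, Nat.div_self (by omega), pow_one, hlc]
  have h5 : ‖∑ P ∈ (Irr k d).filter (fun P => P.natDegree ∣ d ∧ P.natDegree < d),
      (P.natDegree : ℂ) * (lamPR χ M 1 P) ^ (d / P.natDegree)‖ ≤
      2 * (Real.sqrt (Fintype.card k)) ^ d := by
    refine (norm_sum_le _ _).trans ((sum_le_sum fun P hP => ?_).trans (rest_le hk d hd))
    rw [norm_mul, norm_pow, Complex.norm_natCast]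
    calc (P.natDegree : ℝ) * ‖lamPR χ M 1 P‖ ^ (d / P.natDegree) ≤ (P.natDegree : ℝ) * 1 := by
          apply mul_le_mul_of_nonneg_left _ (by positivity)
          exact pow_le_one₀ (norm_nonneg _) (hn1 P)
      _ = _ := mul_one _
  have h6 : (d : ℝ) * ‖∑ P ∈ Pr k d, lc ℓ M P‖ = ‖(d : ℂ) * ∑ P ∈ Pr k d, lc ℓ M P‖ := by
    rw [norm_mul, Complex.norm_natCast]
  rw [h6, ← h4]
  have h7 : ∑ P ∈ Pr k d, (P.natDegree : ℂ) * (lamPR χ M 1 P) ^ (d / P.natDegree) =
      TL (lamPR χ M 1) d - ∑ P ∈ (Irr k d).filter (fun P => P.natDegree ∣ d ∧ P.natDegree < d),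
      (P.natDegree : ℂ) * (lamPR χ M 1 P) ^ (d / P.natDegree) := by
    unfold TL
    rw [h3]
    ring
  rw [h7]
  have h8 : (0 : ℝ) ≤ M.natDegree * (Real.sqrt (Fintype.card k)) ^ d := by positivity
  calc _ ≤ ‖TL (lamPR χ M 1) d‖ +
      ‖∑ P ∈ (Irr k d).filter (fun P => P.natDegree ∣ d ∧ P.natDegree < d),
      (P.natDegree : ℂ) * (lamPR χ M 1 P) ^ (d / P.natDegree)‖ := norm_sub_le _ _
    _ ≤ _ := by linarith

end Pool.Agent.Y287.SZ.Chr
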