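import Pool.Agent.Y164.SZ.Stm
import Pool.Agent.Y164.HG.Rk
import Pool.Agent.Y500.HG.Ext
import Pool.Agent.Y288.HG.Inj

/-!
Project SZ, job RK: the rational points from the triviality of the Selmer classes, general `ℓ`.
-/

set_option autoImplicit false
set_option linter.all false

open Polynomial IsDedekindDomain

namespace Pool.Agent.Y287.SZ.Rk

open Pool.Agent.Y713.SE
open Pool.Agent.Y713.SE.Dat (au phi_apply rs mC_mC mC_PT mC_phi)

theorem coc_one {ℓ n : ℕ} {K : Type} [Field K] (D : Dat ℓ n K) {E : Type} [Field E] [Algebra K E] :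
    D.Coc (L := E) (fun _ => 1) :=
  ⟨IsLocallyConstant.const _, fun σ τ => by rw [map_one, mul_one]⟩

/-- one step of the descent -/
theorem step {ℓ n : ℕ} {K : Type} [Field K] (D : Dat ℓ n K) {E : Type} [Field E] [Algebra K E]
    [IsGalois K E] [IsSepClosed E] {p : ℕ} [ExpChar E p]
    (LT : ((E ≃ₐ[K] E) → ClassGroup (D.base E).A) → Prop) (h1 : LT (fun _ => 1))
    (hLT : ∀ c Q, LT c → LT (fun σ => c σ / (D.mC (au σ) Q / Q)))
    (crit : ∀ χ : (E ≃ₐ[K] E) → Fin n → ℕ,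
      D.Coc (fun σ => cl ((D.base E).PT (χ σ))) →
      LT (fun σ => cl ((D.base E).PT (χ σ))) →
      ∃ (m : Fin n → ℕ) (Q : ClassGroup (D.base E).A),
        cl ((D.base E).PT m) * (D.base E).sC Q = Q ∧
        ∀ σ, cl ((D.base E).PT (χ σ)) = D.mC (au σ) Q / Q)
    (x : ClassGroup (D.base K).A) :
    ∃ (m : Fin n → ℕ) (y : ClassGroup (D.base K).A),
      x = cl ((D.base K).PT m) * (D.base K).phi y := by
  obtain ⟨b, hb⟩ : ∃ b, b = D.mC (Algebra.ofId K E) x := ⟨_, rfl⟩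
  have hbinv : ∀ σ : E ≃ₐ[K] E, D.mC (au σ) b = b := by
    intro σ
    rw [hb, mC_mC]
    congr 2
    exact Subsingleton.elim _ _
  obtain ⟨Q, hQ⟩ := (D.base E).phi_surj (p := p) b
  have hφQ : (D.base E).phi Q = b := by
    rw [phi_apply, div_eq_iff_eq_mul]
    exact hQ.symm
  have h3 : ∀ σ, ∃ m : Fin n → ℕ, 1 / (D.mC (au σ) Q⁻¹ / Q⁻¹) = cl ((D.base E).PT m) := by
    intro σ
    have h4 : (D.base E).phi (1 / (D.mC (au σ) Q⁻¹ / Q⁻¹)) = 1 := by
      rw [_root_.map_div, _root_.map_div, ← mC_phi, map_inv, hφQ, map_inv, hbinv, map_one,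
        div_self', div_one]
    rw [phi_apply, div_eq_one] at h4
    obtain ⟨m', hm⟩ := (D.base E).phi_ker (p := p) h4.symm
    exact ⟨m', by rw [hm, (D.base E).cl_PT]⟩
  choose χ hχ using h3
  have hf : (fun σ => cl ((D.base E).PT (χ σ))) =
      fun σ => (1 : ClassGroup (D.base E).A) / (D.mC (au σ) Q⁻¹ / Q⁻¹) :=
    funext fun σ => (hχ σ).symm
  obtain ⟨m, Q', hQ', hQ''⟩ := crit χ (by rw [hf]; exact (coc_one D).div D Q⁻¹)
    (by rw [hf]; exact hLT _ _ h1)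
  have hφQ' : (D.base E).phi Q' = cl ((D.base E).PT m) := by
    rw [phi_apply, div_eq_iff_eq_mul]
    exact hQ'.symm
  obtain ⟨R, hR⟩ : ∃ R, R = Q / Q' := ⟨_, rfl⟩
  have hRinv : ∀ σ : E ≃ₐ[K] E, D.mC (au σ) R = R := by
    intro σ
    have h5 := hQ'' σ
    rw [← hχ σ] at h5
    have h6 : (1 : ClassGroup (D.base E).A) / (D.mC (au σ) Q⁻¹ / Q⁻¹) = D.mC (au σ) Q / Q := by
      rw [map_inv, one_div, inv_div, inv_div_inv]
    rw [h6] at h5
    rw [hR, _root_.map_div]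
    rw [div_eq_div_iff_mul_eq_mul] at h5
    rw [div_eq_div_iff_mul_eq_mul, h5, mul_comm]
  obtain ⟨B, hB, hBc, hBinv⟩ := D.exists_can R
  obtain ⟨I0, hI0⟩ := Pool.Agent.Y500.HG.t ℓ n K D E B (fun σ => hBinv σ (hRinv σ))
  have hI0' : I0 ≠ ⊥ := by
    rintro rfl
    apply hB
    rw [← hI0]
    exact Ideal.map_bot
  refine ⟨m, cl I0, ?_⟩
  apply Pool.Agent.Y288.HG.Inj.t ℓ n K D E
  rw [map_mul, mC_phi, D.mC_cl _ hI0', hI0, hBc, mC_PT, hR, ← hb, _root_.map_div, hφQ, hφQ',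
    mul_div_cancel]

theorem t : Pool.Agent.Y164.SZ.S_RK := by
  intro ℓ n K _ D E _ _ _ _ p _ LT h1 hLT crit x
  have hs := step D (p := p) LT h1 hLT crit
  have hT : ∀ m : Fin n → ℕ, cl ((D.base K).PT m) ^ ℓ = 1 := by
    intro m
    rw [(D.base K).cl_PT, ← Finset.prod_pow]
    apply Finset.prod_eq_one
    intro k _
    rw [← pow_mul, mul_comm, pow_mul, (D.base K).cl_PP_pow, one_pow]
  have hit : ∀ j : ℕ, ∃ T y : ClassGroup (D.base K).A, T ^ ℓ = 1 ∧
      x = T * (D.base K).phi^[j] y := by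
    intro j
    induction j with
    | zero => exact ⟨1, x, one_pow _, by rw [one_mul]; rfl⟩
    | succ j ih =>
      obtain ⟨T, y, hT1, hx⟩ := ih
      obtain ⟨m, y', hy⟩ := hs y
      refine ⟨T * (D.base K).phi^[j] (cl ((D.base K).PT m)), y', ?_, ?_⟩
      · rw [mul_pow, hT1, one_mul, ← iterate_map_pow, hT m, iterate_map_one]
      · rw [hx, hy, iterate_map_mul, mul_assoc, Function.iterate_succ_apply]
  obtain ⟨T, y, hT1, hx⟩ := hit (ℓ - 1)
  obtain ⟨w, -, hw⟩ := (D.base K).phi_pow 1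
  refine ⟨T, w y, hT1, ?_⟩
  have h2 := hw y
  rw [mul_one, pow_one] at h2
  rw [hx, h2, map_pow]

end Pool.Agent.Y287.SZ.Rk
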